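import Pool.Agent.H29.OpenMul2

set_option autoImplicit false
open Pointwise

namespace Pool.Agent.Results.MP_9cb16a_an.NotOpen

open Pool.Agent.H29.OpenMul in
theorem result :
    ∃ (B : Type) (_ : NormedCommRing B) (_ : NormedAlgebra ℂ B) (_ : CompleteSpace B)
      (_ : NormOneClass B),
      TopologicalSpace.IsTopologicalBasis {s : Set (WeakDual.characterSpace ℂ B) | IsClopen s} ∧
      Dense (Submodule.span ℂ {x : B | IsIdempotentElem x} : Set B) ∧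
      ¬ IsOpenMap (fun p : B × B => p.1 * p.2) ∧
      ¬ (∀ ε : ℝ, 0 < ε → ∃ δ : ℝ, 0 < δ ∧ ∀ x y : B, ‖x‖ ≤ 1 → ‖y‖ ≤ 1 →
          Metric.ball (x * y) δ ⊆ Metric.ball x ε * Metric.ball y ε) := by
  have small : ∀ δ : ℝ, 0 < δ → ∃ t : ℂ, t ≠ 0 ∧ t • c ∈ Metric.ball (0 : A) δ := by
    intro δ hδ
    have h0 : 0 < δ / (‖c‖ + 1) := by positivity
    refine ⟨(δ / (‖c‖ + 1) : ℝ), by exact_mod_cast h0.ne', ?_⟩
    rw [mem_ball_zero_iff, norm_smul, Complex.norm_real, Real.norm_of_nonneg h0.le,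
      div_mul_eq_mul_div, div_lt_iff₀ (by positivity)]
    nlinarith
  refine ⟨A, inferInstance, inferInstance, inferInstance, inferInstance, zero_dim dense_idem,
    dense_idem, fun h => ?_, fun h => ?_⟩
  · have h1 := h _ ((Metric.isOpen_ball (x := a) (ε := 1 / 10)).prod
      (Metric.isOpen_ball (x := b) (ε := 1 / 10)))
    obtain ⟨δ, hδ, h2⟩ := Metric.isOpen_iff.1 h1 0
      ⟨(a, b), ⟨Metric.mem_ball_self (by norm_num), Metric.mem_ball_self (by norm_num)⟩, ab⟩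
    obtain ⟨t, ht, h3⟩ := small δ hδ
    obtain ⟨⟨x, y⟩, ⟨hx, hy⟩, e⟩ := h2 h3
    exact not_prod (mem_ball_iff_norm.1 hx) (mem_ball_iff_norm.1 hy) ht e
  · set M : ℝ := ‖a‖ + ‖b‖ + 1 with hM
    have hM0 : 0 < M := by positivity
    have hMc : (M : ℂ) ≠ 0 := by exact_mod_cast hM0.ne'
    have hn : ‖(M : ℂ)‖ = M := by rw [Complex.norm_real, Real.norm_of_nonneg hM0.le]
    obtain ⟨δ, hδ, h2⟩ := h (1 / 10 / M) (by positivity)
    have h3 := h2 ((M : ℂ)⁻¹ • a) ((M : ℂ)⁻¹ • b)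
      (by rw [norm_smul, norm_inv, hn, inv_mul_le_iff₀ hM0]; linarith [norm_nonneg b])
      (by rw [norm_smul, norm_inv, hn, inv_mul_le_iff₀ hM0]; linarith [norm_nonneg a])
    rw [smul_mul_smul_comm, ab, smul_zero] at h3
    obtain ⟨t, ht, h4⟩ := small δ hδ
    obtain ⟨x, hx, y, hy, e⟩ := h3 h4
    have sc : ∀ z f : A, z ∈ Metric.ball ((M : ℂ)⁻¹ • f) (1 / 10 / M) → ‖(M : ℂ) • z - f‖ < 1 / 10 := by
      intro z f hz
      rw [mem_ball_iff_norm, lt_div_iff₀' hM0] at hz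
      rwa [show (M : ℂ) • z - f = (M : ℂ) • (z - (M : ℂ)⁻¹ • f) by
        rw [smul_sub, smul_inv_smul₀ hMc], norm_smul, hn]
    refine not_prod (sc x a hx) (sc y b hy) (mul_ne_zero (mul_ne_zero hMc hMc) ht) ?_
    have e' : x * y = t • c := e
    rw [smul_mul_smul_comm, e', smul_smul]

end Pool.Agent.Results.MP_9cb16a_an.NotOpen
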